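import Mathlib
import Pool.Agent.Helper82.BorsukUlam
import Pool.Agent.K4H96.GH.Low

/-!
# Lower bounds for the Gromov-Hausdorff distance between Euclidean balls of different dimensions
-/

set_option autoImplicit false

open Metric Set Pool.Agent.K4H96.GH

namespace Pool.Agent.K4H12.GH

/-- The Borsuk-Ulam theorem, for odd maps to a space of smaller dimension. -/
theorem bu {m n : ℕ} (h : n < m) (f : EuclideanSpace ℝ (Fin m) → (Fin n → ℝ)) (hf : Continuous f)
    (hodd : ∀ x, f (-x) = -f x) : ∃ x : EuclideanSpace ℝ (Fin m), x ≠ 0 ∧ f x = 0 := by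
  obtain ⟨k, rfl⟩ : ∃ k, m = k + 1 := ⟨m - 1, by omega⟩
  have hcont : Continuous (fun y : Fin (k + 1) → ℝ => (WithLp.toLp 2 y : EuclideanSpace ℝ (Fin (k + 1)))) :=
    PiLp.continuous_toLp 2 _
  obtain ⟨y, hy, hz⟩ := Pool.Agent.Helper82.BorsukUlam.borsuk_ulam k
    (fun y i => if h : (i : ℕ) < n then f (WithLp.toLp 2 y) ⟨i, h⟩ else 0) (by
      refine continuous_pi fun i => ?_
      split_ifs with h
      · exact (continuous_apply _).comp (hf.comp hcont)
      · exact continuous_const) (by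
      intro y
      funext i
      show (if h : (i : ℕ) < n then f (WithLp.toLp 2 (-y)) ⟨i, h⟩ else 0) =
        -(if h : (i : ℕ) < n then f (WithLp.toLp 2 y) ⟨i, h⟩ else 0)
      split_ifs with h
      · have h1 : (WithLp.toLp 2 (-y) : EuclideanSpace ℝ (Fin (k + 1))) = -(WithLp.toLp 2 y) := rfl
        rw [h1, hodd]
        rfl
      · simp)
  refine ⟨WithLp.toLp 2 y, ?_, ?_⟩
  · intro h0
    have h1 : y = 0 := by
      have := congrArg WithLp.ofLp h0
      simpa using this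
    rw [h1] at hy
    simp [Pool.Agent.Helper82.BorsukUlam.K] at hy
  · funext i
    have h1 := congrFun hz ⟨i, by omega⟩
    simpa using h1

/-- The radial projection to the sphere (and `0` to `0`). -/
noncomputable def P {m : ℕ} (x : EuclideanSpace ℝ (Fin m)) : Ball m :=
  ⟨‖x‖⁻¹ • x, by
    rw [mem_closedBall_zero_iff, norm_smul, norm_inv, norm_norm]
    rcases eq_or_ne x 0 with h | h
    · simp [h]
    · rw [inv_mul_cancel₀ (norm_ne_zero_iff.mpr h)]⟩

theorem P_neg {m : ℕ} (x : EuclideanSpace ℝ (Fin m)) : (P (-x)).1 = -(P x).1 := by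
  unfold P
  simp

theorem dist_P {m : ℕ} {x : EuclideanSpace ℝ (Fin m)} (h : x ≠ 0) : dist (P x) (P (-x)) = 2 := by
  rw [Subtype.dist_eq, P_neg, dist_eq_norm, sub_neg_eq_add, ← two_smul ℝ, norm_smul]
  have : ‖(P x).1‖ = 1 := by
    show ‖‖x‖⁻¹ • x‖ = 1
    rw [norm_smul, norm_inv, norm_norm, inv_mul_cancel₀ (norm_ne_zero_iff.mpr h)]
  rw [this]
  norm_num

theorem P_cont {m : ℕ} {x : EuclideanSpace ℝ (Fin m)} (h : x ≠ 0) (ε : ℝ) (hε : 0 < ε) :
    ∃ δ : ℝ, 0 < δ ∧ ∀ y, dist x y < δ → dist (P x) (P y) < ε := by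
  have hc : ContinuousAt (fun y : EuclideanSpace ℝ (Fin m) => ‖y‖⁻¹ • y) x := by
    refine ContinuousAt.smul (ContinuousAt.inv₀ continuous_norm.continuousAt (norm_ne_zero_iff.mpr h)) continuousAt_id
  rw [Metric.continuousAt_iff] at hc
  obtain ⟨δ, hδ, h1⟩ := hc ε hε
  refine ⟨δ, hδ, fun y hy => ?_⟩
  rw [dist_comm] at hy
  have := h1 hy
  rw [dist_comm, Subtype.dist_eq]
  exact this

/-- **Lusternik-Schnirelmann**: if the ball of dimension `n` is covered by `m` sets of diameter at most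
`D`, then the distance to the ball of dimension `m` is at least `1 - D / 2`. -/
theorem ls {n m : ℕ} (hm : 0 < m) (C : Fin m → Set (Ball n)) (hC : ∀ a, ∃ i, a ∈ C i) (D : ℝ)
    (hD : ∀ i, ∀ a ∈ C i, ∀ b ∈ C i, dist a b ≤ D) :
    1 - D / 2 ≤ GromovHausdorff.ghDist (Ball n) (Ball m) := by
  obtain ⟨k, rfl⟩ : ∃ k, m = k + 1 := ⟨m - 1, by omega⟩
  refine le_of_forall_pos_le_add fun η hη => ?_
  obtain ⟨T, hT⟩ := exists_map (X := Ball n) (Y := Ball (k + 1))
    (r := GromovHausdorff.ghDist (Ball n) (Ball (k + 1)) + η / 2) (by linarith)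
  obtain ⟨r, hr⟩ : ∃ r, r = GromovHausdorff.ghDist (Ball n) (Ball (k + 1)) + η / 2 := ⟨_, rfl⟩
  rw [← hr] at hT
  set F : Fin (k + 1) → Set (EuclideanSpace ℝ (Fin (k + 1))) := fun i => {x | T (P x) ∈ C i} with hF
  obtain ⟨x, hx0, hx⟩ := bu (m := k + 1) (n := k) (by omega)
    (fun x i => infDist x (F i.castSucc) - infDist (-x) (F i.castSucc)) (by
      refine continuous_pi fun i => ?_
      exact (continuous_infDist_pt _).sub ((continuous_infDist_pt _).comp continuous_neg)) (by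
      intro x
      funext i
      simp)
  have hxi : ∀ i : Fin k, infDist x (F i.castSucc) = infDist (-x) (F i.castSucc) := by
    intro i
    have := congrFun hx i
    simpa [sub_eq_zero] using this
  have key : ∃ (j : Fin (k + 1)) (z : EuclideanSpace ℝ (Fin (k + 1))), z ≠ 0 ∧ z ∈ F j ∧ -z ∈ closure (F j) := by
    obtain ⟨j, hj⟩ := hC (T (P x))
    obtain ⟨l, hl⟩ := hC (T (P (-x)))
    rcases Fin.eq_castSucc_or_eq_last j with ⟨i, rfl⟩ | rfl
    · refine ⟨i.castSucc, x, hx0, hj, ?_⟩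
      rw [mem_closure_iff_infDist_zero ⟨x, hj⟩, ← hxi i]
      exact infDist_zero_of_mem hj
    · rcases Fin.eq_castSucc_or_eq_last l with ⟨i, rfl⟩ | rfl
      · refine ⟨i.castSucc, -x, neg_ne_zero.mpr hx0, hl, ?_⟩
        rw [neg_neg, mem_closure_iff_infDist_zero ⟨-x, hl⟩, hxi i]
        exact infDist_zero_of_mem hl
      · exact ⟨_, x, hx0, hj, subset_closure hl⟩
  obtain ⟨j, z, hz0, hz1, hz2⟩ := key
  obtain ⟨δ, hδ, hδ2⟩ := P_cont (neg_ne_zero.mpr hz0) η hη
  obtain ⟨y, hy1, hy2⟩ := Metric.mem_closure_iff.mp hz2 δ hδ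
  have h1 := hδ2 y hy2
  have h2 := hD j _ hz1 _ hy1
  have h3 := hT (P z) (P y)
  have h4 := dist_P hz0
  have h5 := dist_triangle (P z) (P y) (P (-z))
  rw [dist_comm (P y)] at h5
  rw [abs_le] at h3
  linarith [h3.1]

end Pool.Agent.K4H12.GH
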