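import Mathlib
import Pool.Agent.K4H12.GH.Low

/-!
# Two sets of small diameter with intersecting convex hulls are close
-/

set_option autoImplicit false

open Metric Set Pool.Agent.K4H96.GH

namespace Pool.Agent.K4H12.GH

theorem twosum {n : ℕ} {ι κ : Type} [Fintype ι] [Fintype κ] (z : ι → EuclideanSpace ℝ (Fin n))
    (y : κ → EuclideanSpace ℝ (Fin n)) (w : ι → ℝ) (v : κ → ℝ) (c : EuclideanSpace ℝ (Fin n))
    (hw : ∑ i, w i = 1) (hv : ∑ j, v j = 1) (hz : ∑ i, w i • z i = c) (_hy : ∑ j, v j • y j = c) :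
    ∑ i, ∑ j, w i * v j * ‖z i - y j‖ ^ 2 =
      ∑ i, w i * ‖z i - c‖ ^ 2 + ∑ j, v j * ‖y j - c‖ ^ 2 := by
  have h1 : ∀ i j, w i * v j * ‖z i - y j‖ ^ 2 = v j * (w i * ‖z i - c‖ ^ 2) +
      w i * (v j * ‖y j - c‖ ^ 2) - 2 * inner ℝ (w i • (z i - c)) (v j • (y j - c)) := by
    intro i j
    have e : z i - y j = (z i - c) - (y j - c) := by abel
    rw [e, norm_sub_sq_real, real_inner_smul_left, real_inner_smul_right]
    ring
  simp only [h1, Finset.sum_sub_distrib, Finset.sum_add_distrib]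
  have hz0 : ∑ i, w i • (z i - c) = 0 := by
    simp only [smul_sub, Finset.sum_sub_distrib, ← Finset.sum_smul, hw, hz, one_smul, sub_self]
  have h2 : ∑ i, ∑ j, 2 * inner ℝ (w i • (z i - c)) (v j • (y j - c)) = (0 : ℝ) := by
    have : ∀ j, ∑ i, 2 * inner ℝ (w i • (z i - c)) (v j • (y j - c)) = (0 : ℝ) := by
      intro j
      rw [← Finset.mul_sum, ← sum_inner, hz0, inner_zero_left, mul_zero]
    rw [Finset.sum_comm]
    exact Finset.sum_eq_zero fun j _ => this j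
  have h3 : ∑ i, ∑ j, v j * (w i * ‖z i - c‖ ^ 2) = ∑ i, w i * ‖z i - c‖ ^ 2 := by
    refine Finset.sum_congr rfl fun i _ => ?_
    rw [← Finset.sum_mul, hv, one_mul]
  have h4 : ∑ i, ∑ j, w i * (v j * ‖y j - c‖ ^ 2) = ∑ j, v j * ‖y j - c‖ ^ 2 := by
    rw [Finset.sum_comm]
    refine Finset.sum_congr rfl fun j _ => ?_
    rw [← Finset.sum_mul, hw, one_mul]
  rw [h2, h3, h4, sub_zero]

/-- The weighted variance of at most `n + 1` points with distances at most `D`. -/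
theorem variance {n : ℕ} {ι : Type} [Fintype ι] (z : ι → EuclideanSpace ℝ (Fin n))
    (w : ι → ℝ) (c : EuclideanSpace ℝ (Fin n)) (hw0 : ∀ i, 0 ≤ w i)
    (hw : ∑ i, w i = 1) (hz : ∑ i, w i • z i = c) (hc : Fintype.card ι ≤ n + 1) (D : ℝ)
    (hD0 : 0 ≤ D) (hD : ∀ i j, ‖z i - z j‖ ≤ D) :
    2 * ∑ i, w i * ‖z i - c‖ ^ 2 ≤ n / (n + 1) * D ^ 2 := by
  classical
  have h1 := twosum z z w w c hw hw hz hz
  have h2 : ∑ i, ∑ j, w i * w j * ‖z i - z j‖ ^ 2 ≤ (1 - ∑ i, w i ^ 2) * D ^ 2 := by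
    have h3 : ∀ i j, w i * w j * ‖z i - z j‖ ^ 2 ≤ (w i * w j - if i = j then w i ^ 2 else 0) * D ^ 2 := by
      intro i j
      split_ifs with h
      · subst h
        simp [sq]
      · rw [sub_zero]
        refine mul_le_mul_of_nonneg_left ?_ (mul_nonneg (hw0 i) (hw0 j))
        exact pow_le_pow_left₀ (norm_nonneg _) (hD i j) 2
    refine (Finset.sum_le_sum fun i _ => Finset.sum_le_sum fun j _ => h3 i j).trans (le_of_eq ?_)
    simp only [← Finset.sum_mul, Finset.sum_sub_distrib]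
    congr 2
    · have : ∀ i, ∑ j, w i * w j = w i := by
        intro i
        rw [← Finset.mul_sum, hw, mul_one]
      simp only [this, hw]
    · simp
  have h4 : 1 / ((n : ℝ) + 1) ≤ ∑ i, w i ^ 2 := by
    have h5 := sq_sum_le_card_mul_sum_sq (s := (Finset.univ : Finset ι)) (f := w)
    rw [hw, one_pow, Finset.card_univ] at h5
    have h6 : (Fintype.card ι : ℝ) ≤ n + 1 := by exact_mod_cast hc
    have h7 : 0 ≤ ∑ i, w i ^ 2 := Finset.sum_nonneg fun i _ => sq_nonneg _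
    have h8 : (Fintype.card ι : ℝ) * ∑ i, w i ^ 2 ≤ (n + 1) * ∑ i, w i ^ 2 :=
      mul_le_mul_of_nonneg_right h6 h7
    rw [div_le_iff₀ (by positivity)]
    linarith
  have h5 : (1 - ∑ i, w i ^ 2) * D ^ 2 ≤ n / (n + 1) * D ^ 2 := by
    refine mul_le_mul_of_nonneg_right ?_ (sq_nonneg D)
    have : (n : ℝ) / (n + 1) = 1 - 1 / (n + 1) := by
      field_simp
      ring
    rw [this]
    linarith
  linarith

theorem hulls {n : ℕ} (A B : Set (EuclideanSpace ℝ (Fin n))) (c : EuclideanSpace ℝ (Fin n))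
    (hA : c ∈ convexHull ℝ A) (hB : c ∈ convexHull ℝ B) (D s : ℝ) (hD : 0 ≤ D) (hs : 0 ≤ s)
    (hAd : ∀ a ∈ A, ∀ b ∈ A, ‖a - b‖ ≤ D) (hBd : ∀ a ∈ B, ∀ b ∈ B, ‖a - b‖ ≤ D)
    (hAB : ∀ a ∈ A, ∀ b ∈ B, s ≤ ‖a - b‖) : s ^ 2 ≤ n / (n + 1) * D ^ 2 := by
  obtain ⟨ι, _, z, w, h1, h2, h3, h4, h5⟩ := eq_pos_convex_span_of_mem_convexHull hA
  obtain ⟨κ, _, y, v, g1, g2, g3, g4, g5⟩ := eq_pos_convex_span_of_mem_convexHull hB
  have hcard : ∀ (ι : Type) [Fintype ι] (z : ι → EuclideanSpace ℝ (Fin n)), AffineIndependent ℝ z →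
      Fintype.card ι ≤ n + 1 := by
    intro ι _ z hz
    have := hz.card_le_finrank_succ
    refine this.trans ?_
    have h6 := Submodule.finrank_le (vectorSpan ℝ (Set.range z))
    rw [finrank_euclideanSpace_fin] at h6
    omega
  have a1 := variance z w c (fun i => (h3 i).le) h4 h5 (hcard _ z h2) D hD
    (fun i j => hAd _ (h1 ⟨i, rfl⟩) _ (h1 ⟨j, rfl⟩))
  have a2 := variance y v c (fun i => (g3 i).le) g4 g5 (hcard _ y g2) D hD
    (fun i j => hBd _ (g1 ⟨i, rfl⟩) _ (g1 ⟨j, rfl⟩))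
  have a3 := twosum z y w v c h4 g4 h5 g5
  have a4 : s ^ 2 ≤ ∑ i, ∑ j, w i * v j * ‖z i - y j‖ ^ 2 := by
    have : ∑ i, ∑ j, w i * v j * s ^ 2 = s ^ 2 := by
      simp only [← Finset.sum_mul, ← Finset.mul_sum, g4, mul_one, h4, one_mul]
    rw [← this]
    refine Finset.sum_le_sum fun i _ => Finset.sum_le_sum fun j _ => ?_
    refine mul_le_mul_of_nonneg_left ?_ (mul_nonneg (h3 i).le (g3 j).le)
    exact pow_le_pow_left₀ hs (hAB _ (h1 ⟨i, rfl⟩) _ (g1 ⟨j, rfl⟩)) 2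
  linarith

end Pool.Agent.K4H12.GH
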