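import Mathlib
import Pool.Agent.K4H12.GH.Jung

/-!
# The lower bound for all pairs of dimensions
-/

set_option autoImplicit false

open Metric Set Pool.Agent.K4H96.GH

namespace Pool.Agent.K4H12.GH

open Classical in
/-- the weights -/
noncomputable def wt {m : ℕ} (ε : ℝ) (p : Ball m) (x : EuclideanSpace ℝ (Fin m)) : ℝ :=
  max 0 (ε * ‖x‖ - ‖x - ‖x‖ • p.1‖)

theorem wt_nonneg {m : ℕ} (ε : ℝ) (p : Ball m) (x : EuclideanSpace ℝ (Fin m)) : 0 ≤ wt ε p x :=
  le_max_left _ _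

theorem wt_cont {m : ℕ} (ε : ℝ) (p : Ball m) : Continuous (wt ε p) := by
  unfold wt
  fun_prop

theorem norm_eq {m : ℕ} {x : EuclideanSpace ℝ (Fin m)} (hx : x ≠ 0) (p : Ball m) :
    ‖x - ‖x‖ • p.1‖ = ‖x‖ * dist (P x) p := by
  have h : x - ‖x‖ • p.1 = ‖x‖ • ((P x).1 - p.1) := by
    show x - ‖x‖ • p.1 = ‖x‖ • (‖x‖⁻¹ • x - p.1)
    rw [smul_sub, smul_smul, mul_inv_cancel₀ (norm_ne_zero_iff.mpr hx), one_smul]
  rw [h, norm_smul, norm_norm, Subtype.dist_eq, dist_eq_norm]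

theorem dist_lt_of_wt {m : ℕ} {ε : ℝ} {p : Ball m} {x : EuclideanSpace ℝ (Fin m)} (hx : x ≠ 0)
    (h : wt ε p x ≠ 0) : dist (P x) p < ε := by
  have h1 : 0 < wt ε p x := lt_of_le_of_ne (wt_nonneg _ _ _) (Ne.symm h)
  unfold wt at h1
  rw [lt_max_iff] at h1
  rcases h1 with h1 | h1
  · exact absurd h1 (lt_irrefl _)
  · rw [norm_eq hx] at h1
    have h2 : 0 < ‖x‖ := norm_pos_iff.mpr hx
    have h3 : ‖x‖ * dist (P x) p < ‖x‖ * ε := by linarith
    exact lt_of_mul_lt_mul_left h3 h2.le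

theorem wt_pos {m : ℕ} {ε : ℝ} {p : Ball m} {x : EuclideanSpace ℝ (Fin m)} (hx : x ≠ 0)
    (h : dist (P x) p < ε) : 0 < wt ε p x := by
  unfold wt
  rw [lt_max_iff]
  right
  rw [norm_eq hx]
  have h2 : 0 < ‖x‖ := norm_pos_iff.mpr hx
  have h3 : ‖x‖ * dist (P x) p < ‖x‖ * ε := mul_lt_mul_of_pos_left h h2
  linarith

theorem jung_bound {n m : ℕ} (h : n < m) :
    1 / (1 + Real.sqrt (n / (n + 1))) ≤ GromovHausdorff.ghDist (Ball n) (Ball m) := by
  refine le_of_forall_pos_le_add fun η hη => ?_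
  obtain ⟨T, hT⟩ := exists_map (X := Ball n) (Y := Ball m)
    (r := GromovHausdorff.ghDist (Ball n) (Ball m) + η / 2) (by linarith)
  have hG : 0 ≤ GromovHausdorff.ghDist (Ball n) (Ball m) := dist_nonneg
  obtain ⟨r, hr⟩ : ∃ r, r = GromovHausdorff.ghDist (Ball n) (Ball m) + η / 2 := ⟨_, rfl⟩
  rw [← hr] at hT
  obtain ⟨ε, hε⟩ : ∃ ε, ε = η / 2 := ⟨_, rfl⟩
  have hε0 : 0 < ε := by rw [hε]; linarith
  obtain ⟨t, -, htf, ht⟩ := (isCompact_univ : IsCompact (univ : Set (Ball m))).finite_cover_balls hε0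
  obtain ⟨S, rfl⟩ : ∃ S : Finset (Ball m), (S : Set (Ball m)) = t := ⟨htf.toFinset, by simp⟩
  have hcov : ∀ y : Ball m, ∃ p ∈ S, dist y p < ε := by
    intro y
    have := ht (mem_univ y)
    simpa using this
  set W : EuclideanSpace ℝ (Fin m) → ℝ := fun x => ∑ p ∈ S, wt ε p x with hW
  set g : EuclideanSpace ℝ (Fin m) → EuclideanSpace ℝ (Fin n) := fun x => ∑ p ∈ S, wt ε p x • (T p).1 with hg
  have hWc : Continuous W := continuous_finsetSum _ fun p _ => wt_cont ε p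
  have hgc : Continuous g := continuous_finsetSum _ fun p _ => (wt_cont ε p).smul continuous_const
  have hWpos : ∀ x, x ≠ 0 → 0 < W x := by
    intro x hx
    obtain ⟨p, hp, hd⟩ := hcov (P x)
    exact Finset.sum_pos' (fun q _ => wt_nonneg _ _ _) ⟨p, hp, wt_pos hx hd⟩
  obtain ⟨x, hx0, hx⟩ := bu h (fun x => WithLp.ofLp (W (-x) • g x - W x • g (-x))) (by
      refine (PiLp.continuous_ofLp 2 _).comp ?_
      exact ((hWc.comp continuous_neg).smul hgc).sub (hWc.smul (hgc.comp continuous_neg))) (by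
      intro x
      funext i
      simp only [neg_neg]
      show (W x • g (-x) - W (-x) • g x) i = -((W (-x) • g x - W x • g (-x)) i)
      simp only [PiLp.sub_apply, PiLp.smul_apply]
      ring)
  have hx1 : W (-x) • g x = W x • g (-x) := by
    have h1 : W (-x) • g x - W x • g (-x) = 0 := by
      ext i
      exact congrFun hx i
    exact sub_eq_zero.mp h1
  have hnx : -x ≠ 0 := neg_ne_zero.mpr hx0
  have hmem : ∀ y, y ≠ 0 → (W y)⁻¹ • g y ∈ convexHull ℝ {v | ∃ p : Ball m, dist (P y) p < ε ∧ v = (T p).1} := by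
    intro y hy
    have h1 : (W y)⁻¹ • g y = S.centerMass (fun p => wt ε p y) (fun p => (T p).1) := rfl
    rw [h1, ← Finset.centerMass_filter_ne_zero]
    refine Finset.centerMass_mem_convexHull _ (fun p _ => wt_nonneg _ _ _) ?_ ?_
    · have h2 : ∑ p ∈ S with wt ε p y ≠ 0, wt ε p y = W y := Finset.sum_filter_ne_zero S
      rw [h2]
      exact hWpos y hy
    · intro p hp
      rw [Finset.mem_filter] at hp
      exact ⟨p, dist_lt_of_wt hy hp.2, rfl⟩
  have hc : (W x)⁻¹ • g x = (W (-x))⁻¹ • g (-x) := by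
    have h1 := (hWpos x hx0).ne'
    have h2 := (hWpos _ hnx).ne'
    have h3 : (W x)⁻¹ • g x = ((W x)⁻¹ * (W (-x))⁻¹) • (W (-x) • g x) := by
      rw [smul_smul]
      congr 1
      field_simp
    have h4 : (W (-x))⁻¹ • g (-x) = ((W x)⁻¹ * (W (-x))⁻¹) • (W x • g (-x)) := by
      rw [smul_smul]
      congr 1
      field_simp
    rw [h3, h4, hx1]
  have hnorm : ∀ a b : Ball m, ‖(T a).1 - (T b).1‖ = dist (T a) (T b) := by
    intro a b
    rw [Subtype.dist_eq, dist_eq_norm]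
  have hclose : ∀ y : EuclideanSpace ℝ (Fin m), ∀ a ∈ {v | ∃ p : Ball m, dist (P y) p < ε ∧ v = (T p).1},
      ∀ b ∈ {v | ∃ p : Ball m, dist (P y) p < ε ∧ v = (T p).1}, ‖a - b‖ ≤ 2 * r + 2 * ε := by
    rintro y _ ⟨p, hp, rfl⟩ _ ⟨q, hq, rfl⟩
    rw [hnorm]
    have h1 := hT p q
    have h2 := dist_triangle_left p q (P y)
    rw [abs_le] at h1
    linarith [h1.2]
  have hfar : ∀ a ∈ {v | ∃ p : Ball m, dist (P x) p < ε ∧ v = (T p).1},
      ∀ b ∈ {v | ∃ p : Ball m, dist (P (-x)) p < ε ∧ v = (T p).1}, 2 - 2 * r - 2 * ε ≤ ‖a - b‖ := by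
    rintro _ ⟨p, hp, rfl⟩ _ ⟨q, hq, rfl⟩
    rw [hnorm]
    have h1 := hT p q
    have h2 := dist_triangle4 (P x) p q (P (-x))
    rw [dist_P hx0, dist_comm q] at h2
    rw [abs_le] at h1
    linarith [h1.1]
  have hq0 : 0 ≤ Real.sqrt ((n : ℝ) / (n + 1)) := Real.sqrt_nonneg _
  rw [div_le_iff₀ (by linarith)]
  rcases lt_or_ge (2 - 2 * r - 2 * ε) 0 with hneg | hnn
  · nlinarith
  · have h1 := hulls _ _ _ (hmem x hx0) (hc ▸ hmem (-x) hnx) (2 * r + 2 * ε) (2 - 2 * r - 2 * ε)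
      (by linarith) hnn (hclose x) (hclose (-x)) hfar
    have h2 : 2 - 2 * r - 2 * ε ≤ Real.sqrt ((n : ℝ) / (n + 1)) * (2 * r + 2 * ε) := by
      have h3 := Real.sqrt_le_sqrt h1
      rw [Real.sqrt_sq hnn, Real.sqrt_mul (by positivity), Real.sqrt_sq (by linarith)] at h3
      exact h3
    have h4 : GromovHausdorff.ghDist (Ball n) (Ball m) + η = r + ε := by rw [hr, hε]; ring
    rw [h4]
    linarith

end Pool.Agent.K4H12.GH
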