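import Mathlib
import Pool.Agent.K4H12.GH.Low

/-!
# Coverings of a ball by small cubes
-/

set_option autoImplicit false

open Metric Set Pool.Agent.K4H96.GH

namespace Pool.Agent.K4H12.GH

theorem ls' {n m : ℕ} (hm : 0 < m) {ι : Type} [Fintype ι] (hι : Fintype.card ι ≤ m)
    (C : ι → Set (Ball n)) (hC : ∀ a, ∃ i, a ∈ C i) (D : ℝ)
    (hD : ∀ i, ∀ a ∈ C i, ∀ b ∈ C i, dist a b ≤ D) :
    1 - D / 2 ≤ GromovHausdorff.ghDist (Ball n) (Ball m) := by
  obtain ⟨e⟩ : Nonempty (ι ↪ Fin m) := by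
    rw [Function.Embedding.nonempty_iff_card_le]
    simpa using hι
  refine ls hm (fun j => {a | ∃ i, e i = j ∧ a ∈ C i}) (fun a => ?_) D ?_
  · obtain ⟨i, hi⟩ := hC a
    exact ⟨e i, i, rfl, hi⟩
  · rintro j a ⟨i, rfl, ha⟩ b ⟨i', hi', hb⟩
    rw [e.injective hi'] at hb
    exact hD i a ha b hb

theorem coord_le {n : ℕ} (a : Ball n) (i : Fin n) : |a.1 i| ≤ 1 := by
  have h1 : ‖a.1‖ ≤ 1 := by
    have := a.2
    rwa [mem_closedBall_zero_iff] at this
  have h2 := PiLp.norm_apply_le a.1 i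
  rw [Real.norm_eq_abs] at h2
  exact h2.trans h1

theorem exists_cell (k : ℕ) (hk : 0 < k) (t : ℝ) (ht : |t| ≤ 1) :
    ∃ e : Fin k, -1 + 2 * (e : ℝ) / k ≤ t ∧ t ≤ -1 + 2 * ((e : ℝ) + 1) / k := by
  rw [abs_le] at ht
  have hk0 : (0 : ℝ) < k := by exact_mod_cast hk
  have h0 : 0 ≤ (t + 1) * k / 2 := by
    have : 0 ≤ (t + 1) * k := mul_nonneg (by linarith) hk0.le
    linarith
  obtain ⟨q, hq⟩ : ∃ q, q = ⌊(t + 1) * k / 2⌋₊ := ⟨_, rfl⟩
  have h1 : (q : ℝ) ≤ (t + 1) * k / 2 := by rw [hq]; exact Nat.floor_le h0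
  have h2 : (t + 1) * k / 2 < q + 1 := by rw [hq]; exact Nat.lt_floor_add_one _
  rcases lt_or_ge q k with h | h
  · refine ⟨⟨q, h⟩, ?_, ?_⟩
    · have : 2 * (q : ℝ) / k ≤ t + 1 := by
        rw [div_le_iff₀ hk0]; linarith
      show -1 + 2 * (q : ℝ) / k ≤ t
      linarith
    · have : t + 1 ≤ 2 * ((q : ℝ) + 1) / k := by
        rw [le_div_iff₀ hk0]; linarith
      show t ≤ -1 + 2 * ((q : ℝ) + 1) / k
      linarith
  · have h3 : (k : ℝ) ≤ q := by exact_mod_cast h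
    have h4 : t = 1 := by
      have : (k : ℝ) ≤ (t + 1) * k / 2 := h3.trans h1
      have h5 : 2 * (k : ℝ) ≤ (t + 1) * k := by linarith
      have h6 : 2 ≤ t + 1 := le_of_mul_le_mul_right h5 hk0
      linarith [ht.2]
    refine ⟨⟨k - 1, by omega⟩, ?_, ?_⟩
    · show -1 + 2 * ((k - 1 : ℕ) : ℝ) / k ≤ t
      rw [Nat.cast_sub hk, h4]
      have : 2 * ((k : ℝ) - ((1 : ℕ) : ℝ)) / k ≤ 2 := by
        rw [div_le_iff₀ hk0]; push_cast; linarith
      linarith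
    · show t ≤ -1 + 2 * (((k - 1 : ℕ) : ℝ) + 1) / k
      rw [Nat.cast_sub hk, h4]
      have : 2 * ((k : ℝ) - ((1 : ℕ) : ℝ) + 1) / k = 2 := by
        rw [div_eq_iff hk0.ne']; push_cast; ring
      linarith

theorem cube {n m k : ℕ} (hk : 0 < k) (h : k ^ n ≤ m) :
    1 - Real.sqrt n / k ≤ GromovHausdorff.ghDist (Ball n) (Ball m) := by
  have hm : 0 < m := lt_of_lt_of_le (pow_pos hk n) h
  have hk0 : (0 : ℝ) < k := by exact_mod_cast hk
  have h1 := ls' (n := n) (m := m) hm (ι := Fin n → Fin k) (by simpa using h)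
    (fun e => {a | ∀ i, -1 + 2 * (e i : ℝ) / k ≤ a.1 i ∧ a.1 i ≤ -1 + 2 * ((e i : ℝ) + 1) / k})
    (fun a => by
      choose e he using fun i => exists_cell k hk (a.1 i) (coord_le a i)
      exact ⟨e, he⟩) (2 * Real.sqrt n / k) (by
      intro e a ha b hb
      rw [Subtype.dist_eq, EuclideanSpace.dist_eq]
      have h2 : ∀ i, dist (a.1 i) (b.1 i) ^ 2 ≤ (2 / k) ^ 2 := by
        intro i
        have h3 := ha i
        have h4 := hb i
        have h5 : 2 * ((e i : ℝ) + 1) / k = 2 * (e i : ℝ) / k + 2 / k := by ring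
        rw [h5] at h3 h4
        rw [Real.dist_eq, sq_abs]
        apply sq_le_sq'
        · linarith [h3.1, h4.2]
        · linarith [h3.2, h4.1]
      have h6 : ∑ i, dist (a.1 i) (b.1 i) ^ 2 ≤ n * (2 / k : ℝ) ^ 2 := by
        refine (Finset.sum_le_sum fun i _ => h2 i).trans ?_
        simp
      refine (Real.sqrt_le_sqrt h6).trans (le_of_eq ?_)
      rw [Real.sqrt_mul (Nat.cast_nonneg n), Real.sqrt_sq (by positivity)]
      ring)
  have h7 : 2 * Real.sqrt n / k / 2 = Real.sqrt n / k := by ring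
  rw [h7] at h1
  exact h1

end Pool.Agent.K4H12.GH
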