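import Mathlib
import Pool.Agent.K4H12.GH.Bound
import Pool.Agent.K4H12.GH.Cube

/-!
# The upper bound one, and the limit
-/

set_option autoImplicit false

open Metric Set Filter Topology Pool.Agent.K4H96.GH

namespace Pool.Agent.K4H12.GH

/-- The inclusion of `ℝ ^ n` in `ℝ ^ (n + l)`. -/
noncomputable def pad {n : ℕ} (l : ℕ) (x : EuclideanSpace ℝ (Fin n)) : EuclideanSpace ℝ (Fin (n + l)) :=
  WithLp.toLp 2 (Fin.append x.ofLp (fun _ => 0))

theorem dist_pad {n : ℕ} (l : ℕ) (x y : EuclideanSpace ℝ (Fin n)) : dist (pad l x) (pad l y) = dist x y := by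
  rw [EuclideanSpace.dist_eq, EuclideanSpace.dist_eq, Fin.sum_univ_add]
  congr 1
  simp [pad]

theorem pad_zero {n : ℕ} (l : ℕ) : pad l (0 : EuclideanSpace ℝ (Fin n)) = 0 := by
  ext i
  refine Fin.addCases (fun i => ?_) (fun i => ?_) i
  · simp [pad]
  · simp [pad]

theorem upper {n m : ℕ} (h : n ≤ m) : GromovHausdorff.ghDist (Ball n) (Ball m) ≤ 1 := by
  obtain ⟨l, rfl⟩ := Nat.exists_eq_add_of_le h
  have h1 : Isometry (fun a : Ball n => pad l a.1) := by
    refine Isometry.of_dist_eq fun a b => ?_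
    rw [dist_pad, Subtype.dist_eq]
  have h2 : Isometry (fun a : Ball (n + l) => a.1) := isometry_subtype_coe
  refine (GromovHausdorff.ghDist_le_hausdorffDist h1 h2).trans ?_
  refine hausdorffDist_le_of_mem_dist zero_le_one ?_ ?_
  · rintro _ ⟨a, rfl⟩
    refine ⟨pad l a.1, ⟨⟨pad l a.1, ?_⟩, rfl⟩, by simp⟩
    rw [mem_closedBall, ← pad_zero (n := n) l, dist_pad]
    exact a.2
  · rintro _ ⟨b, rfl⟩
    refine ⟨0, ⟨⟨0, by simp⟩, pad_zero l⟩, ?_⟩
    exact b.2

theorem tendsto_one (n : ℕ) : Tendsto (fun m => GromovHausdorff.ghDist (Ball n) (Ball m)) atTop (𝓝 1) := by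
  rw [Metric.tendsto_atTop]
  intro ε hε
  obtain ⟨k, hk⟩ := exists_nat_gt (Real.sqrt n / ε)
  have hk0 : (0 : ℝ) < k := lt_of_le_of_lt (by positivity) hk
  have hk1 : 0 < k := by exact_mod_cast hk0
  refine ⟨max n (k ^ n), fun m hm => ?_⟩
  have h1 := cube (n := n) (m := m) hk1 ((le_max_right _ _).trans hm)
  have h2 := upper (n := n) (m := m) ((le_max_left _ _).trans hm)
  have h3 : Real.sqrt n / k < ε := by
    rw [div_lt_iff₀ hε] at hk
    rw [div_lt_iff₀ hk0]
    linarith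
  rw [Real.dist_eq, abs_lt]
  constructor <;> linarith

theorem half_lt {n m : ℕ} (h : n < m) : 1 / 2 < GromovHausdorff.ghDist (Ball n) (Ball m) := by
  refine lt_of_lt_of_le ?_ (jung_bound h)
  have h1 : Real.sqrt ((n : ℝ) / (n + 1)) < 1 := by
    rw [Real.sqrt_lt' one_pos, one_pow, div_lt_one (by positivity)]
    linarith
  have h2 := Real.sqrt_nonneg ((n : ℝ) / (n + 1))
  exact one_div_lt_one_div_of_lt (by linarith) (by linarith)

end Pool.Agent.K4H12.GH
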