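import Mathlib
import Pool.Agent.K4H12.GH.Upper

/-!
# The interval and the balls of even dimension
-/

set_option autoImplicit false

open Metric Set Filter Topology Pool.Agent.K4H96.GH

namespace Pool.Agent.K4H12.GH

theorem sum_alt (a b : ℝ) (u : ℕ → ℝ) (k : ℕ) (h0 : ∀ j ≤ k, u (2 * j) = a) (h1 : ∀ j < k, u (2 * j + 1) = b) :
    ∑ j ∈ Finset.range (2 * k + 1), u j = (k + 1) * a + k * b := by
  induction k with
  | zero => simpa using h0 0 le_rfl
  | succ k ih =>
    have e : 2 * (k + 1) + 1 = 2 * k + 1 + 1 + 1 := by ring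
    rw [e, Finset.sum_range_succ, Finset.sum_range_succ, ih (fun j hj => h0 j (by omega)) (fun j hj => h1 j (by omega)),
      h1 k (by omega), show 2 * k + 1 + 1 = 2 * (k + 1) by ring, h0 (k + 1) le_rfl]
    push_cast
    ring

theorem even_core {k : ℕ} (hk : 0 < k) (T : Ball (2 * k) → Ball 1) (r : ℝ)
    (hT : ∀ p q, |dist (T p) (T q) - dist p q| ≤ 2 * r) (ε : ℝ) (hε0 : 0 < ε) :
    2 - 2 * ε - 2 * r ≤ 2 / (2 * k + 1) := by
  by_contra hcon
  push Not at hcon
  obtain ⟨s, hs⟩ : ∃ s, s = 2 - 2 * ε - 2 * r := ⟨_, rfl⟩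
  rw [← hs] at hcon
  have hK : (0 : ℝ) < 2 * k + 1 := by positivity
  obtain ⟨t, -, htf, ht⟩ := (isCompact_univ : IsCompact (univ : Set (Ball (2 * k)))).finite_cover_balls hε0
  obtain ⟨S, rfl⟩ : ∃ S : Finset (Ball (2 * k)), (S : Set (Ball (2 * k))) = t := ⟨htf.toFinset, by simp⟩
  have hcov : ∀ y : Ball (2 * k), ∃ p ∈ S, dist y p < ε := by
    intro y
    have := ht (mem_univ y)
    simpa using this
  obtain ⟨a, ha⟩ : ∃ a : Ball (2 * k) → ℝ, a = fun p => (T p).1 0 := ⟨_, rfl⟩
  have hd : ∀ p q, |(|a p - a q|) - dist p q| ≤ 2 * r := by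
    intro p q
    have := hT p q
    rw [dist_ball1] at this
    rw [ha]
    exact this
  have hcell : ∀ p, ∃ c : Fin (2 * k + 1), -1 + 2 * (c : ℝ) / (2 * k + 1) ≤ a p ∧
      a p ≤ -1 + 2 * ((c : ℝ) + 1) / (2 * k + 1) := by
    intro p
    obtain ⟨e, he⟩ := exists_cell (2 * k + 1) (by omega) (a p) (by rw [ha]; exact coord_le _ _)
    refine ⟨e, ?_⟩
    push_cast at he
    exact he
  choose c hc using hcell
  set W : EuclideanSpace ℝ (Fin (2 * k)) → ℝ := fun x => ∑ p ∈ S, wt ε p x with hW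
  set V : ℕ → EuclideanSpace ℝ (Fin (2 * k)) → ℝ := fun j x => ∑ p ∈ S with (c p : ℕ) = j, wt ε p x with hV
  have hWc : Continuous W := continuous_finsetSum _ fun p _ => wt_cont ε p
  have hVc : ∀ j, Continuous (V j) := fun j => continuous_finsetSum _ fun p _ => wt_cont ε p
  have hV0 : ∀ j x, 0 ≤ V j x := fun j x => Finset.sum_nonneg fun p _ => wt_nonneg _ _ _
  have hWpos : ∀ x, x ≠ 0 → 0 < W x := by
    intro x hx
    obtain ⟨p, hp, hd⟩ := hcov (P x)
    exact Finset.sum_pos' (fun q _ => wt_nonneg _ _ _) ⟨p, hp, wt_pos hx hd⟩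
  have hVW : ∀ x, ∑ j ∈ Finset.range (2 * k + 1), V j x = W x := by
    intro x
    exact Finset.sum_fiberwise_of_maps_to (fun p _ => Finset.mem_range.mpr (c p).2) _
  have hVpos : ∀ j x, x ≠ 0 → 0 < V j x → ∃ p, (c p : ℕ) = j ∧ dist (P x) p < ε := by
    intro j x hx h
    obtain ⟨p, hp, h1⟩ := Finset.exists_ne_zero_of_sum_ne_zero h.ne'
    rw [Finset.mem_filter] at hp
    exact ⟨p, hp.2, dist_lt_of_wt hx h1⟩
  have hfar : ∀ x p q, x ≠ 0 → dist (P x) p < ε → dist (P (-x)) q < ε → s ≤ |a p - a q| := by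
    intro x p q hx hp hq
    have h1 := hd p q
    have h2 := dist_triangle4 (P x) p q (P (-x))
    rw [dist_P hx, dist_comm q] at h2
    rw [abs_le] at h1
    linarith [h1.1]
  have hnear : ∀ x p q, dist (P x) p < ε → dist (P x) q < ε → |a p - a q| ≤ 2 - s := by
    intro x p q hp hq
    have h1 := hd p q
    have h2 := dist_triangle_left p q (P x)
    rw [abs_le] at h1
    linarith [h1.2]
  have hcell2 : ∀ p q, (c p : ℕ) = c q → |a p - a q| ≤ 2 / (2 * k + 1) := by
    intro p q h
    have h1 := hc p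
    have h2 := hc q
    have h3 : ((c p : ℕ) : ℝ) = ((c q : ℕ) : ℝ) := by rw [h]
    have h4 : 2 * (((c q : ℕ) : ℝ) + 1) / (2 * k + 1) = 2 * ((c q : ℕ) : ℝ) / (2 * k + 1) + 2 / (2 * k + 1) := by ring
    rw [h3, h4] at h1
    rw [h4] at h2
    rw [abs_le]
    constructor <;> linarith [h1.1, h1.2, h2.1, h2.2]
  have hexcl : ∀ x j, x ≠ 0 → ¬ (0 < V j x ∧ 0 < V j (-x)) := by
    rintro x j hx ⟨h1, h2⟩
    obtain ⟨p, hp, hp1⟩ := hVpos j x hx h1
    obtain ⟨q, hq, hq1⟩ := hVpos j (-x) (neg_ne_zero.mpr hx) h2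
    have h3 := hfar x p q hx hp1 hq1
    have h4 := hcell2 p q (hp.trans hq.symm)
    linarith
  -- the core: an alternating pattern is impossible
  have core : ∀ x, x ≠ 0 → (∀ j ≤ k, 0 < V (2 * j) x) → (∀ j < k, 0 < V (2 * j + 1) (-x)) → False := by
    intro x hx h0 h1
    have hnx : -x ≠ 0 := neg_ne_zero.mpr hx
    have hstep : ∀ p q, (c q : ℕ) = c p + 1 → s ≤ |a p - a q| → a p + s ≤ a q := by
      intro p q h h2
      have h3 := (hc p).2
      have h4 := (hc q).1
      have h5 : ((c q : ℕ) : ℝ) = ((c p : ℕ) : ℝ) + 1 := by rw [h]; push_cast; ring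
      rw [h5] at h4
      rw [abs_of_nonpos (by linarith)] at h2
      linarith
    have hq : ∀ j ≤ 2 * k, ∃ q, (c q : ℕ) = j ∧ dist (P (if Even j then x else -x)) q < ε := by
      intro j hj
      rcases Nat.even_or_odd' j with ⟨i, rfl | rfl⟩
      · obtain ⟨q, h2, h3⟩ := hVpos (2 * i) x hx (h0 i (by omega))
        refine ⟨q, h2, ?_⟩
        rw [if_pos (even_two_mul i)]
        exact h3
      · obtain ⟨q, h2, h3⟩ := hVpos (2 * i + 1) (-x) hnx (h1 i (by omega))
        refine ⟨q, h2, ?_⟩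
        rw [if_neg (Nat.not_even_two_mul_add_one i)]
        exact h3
    choose! q hq1 hq2 using hq
    have hind : ∀ j ≤ 2 * k, a (q 0) + j * s ≤ a (q j) := by
      intro j
      induction j with
      | zero => intro _; simp
      | succ j ih =>
        intro hj
        have h2 := ih (by omega)
        have h3 : s ≤ |a (q j) - a (q (j + 1))| := by
          have g1 := hq2 j (by omega)
          have g2 := hq2 (j + 1) hj
          by_cases he : Even j
          · rw [if_pos he] at g1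
            rw [if_neg (by rw [Nat.even_add_one]; simpa using he)] at g2
            exact hfar x _ _ hx g1 g2
          · rw [if_neg he] at g1
            rw [if_pos (by rw [Nat.even_add_one]; exact he)] at g2
            rw [abs_sub_comm]
            exact hfar x _ _ hx g2 g1
        have h4 := hstep (q j) (q (j + 1)) (by rw [hq1 j (by omega), hq1 (j + 1) hj]) h3
        push_cast
        linarith
    have h2 := hind (2 * k) le_rfl
    have g1 := hq2 0 (by omega)
    have g2 := hq2 (2 * k) le_rfl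
    rw [if_pos (by simp)] at g1
    rw [if_pos (even_two_mul k)] at g2
    have h3 := hnear x _ _ g1 g2
    rw [abs_le] at h3
    push_cast at h2
    rw [div_lt_iff₀ hK] at hcon
    linarith [h3.1]
  set v : ℕ → EuclideanSpace ℝ (Fin (2 * k)) → ℝ := fun j x => W (-x) * V j x - W x * V j (-x) with hv
  have hvc : ∀ j, Continuous (v j) := fun j =>
    ((hWc.comp continuous_neg).mul (hVc j)).sub (hWc.mul ((hVc j).comp continuous_neg))
  have hvn : ∀ j x, v j (-x) = -v j x := by
    intro j x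
    show W (- -x) * V j (-x) - W (-x) * V j (- -x) = -(W (-x) * V j x - W x * V j (-x))
    rw [neg_neg]
    ring
  obtain ⟨x, hx0, hx⟩ := bu (m := 2 * k) (n := 2 * k - 1) (by omega) (fun x i => v (i + 2) x - v i x)
    (continuous_pi fun i => (hvc _).sub (hvc _)) (by
      intro x
      funext i
      show v (i + 2) (-x) - v i (-x) = -(v (i + 2) x - v i x)
      rw [hvn, hvn]
      ring)
  have hstep : ∀ i < 2 * k - 1, v (i + 2) x = v i x := by
    intro i hi
    have h1 := congrFun hx ⟨i, hi⟩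
    have h2 : v (i + 2) x - v i x = 0 := h1
    linarith
  have he : ∀ j ≤ k, v (2 * j) x = v 0 x := by
    intro j
    induction j with
    | zero => intro _; rfl
    | succ j ih =>
      intro hj
      rw [show 2 * (j + 1) = 2 * j + 2 by ring, hstep (2 * j) (by omega), ih (by omega)]
  have ho : ∀ j < k, v (2 * j + 1) x = v 1 x := by
    intro j
    induction j with
    | zero => intro _; rfl
    | succ j ih =>
      intro hj
      rw [show 2 * (j + 1) + 1 = (2 * j + 1) + 2 by ring, hstep (2 * j + 1) (by omega), ih (by omega)]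
  have hsum : ∑ j ∈ Finset.range (2 * k + 1), v j x = 0 := by
    show ∑ j ∈ Finset.range (2 * k + 1), (W (-x) * V j x - W x * V j (-x)) = 0
    rw [Finset.sum_sub_distrib, ← Finset.mul_sum, ← Finset.mul_sum, hVW, hVW]
    ring
  rw [sum_alt (v 0 x) (v 1 x) (fun j => v j x) k he ho] at hsum
  have hW1 := hWpos x hx0
  have hW2 := hWpos (-x) (neg_ne_zero.mpr hx0)
  have hkr : (0 : ℝ) < k := by exact_mod_cast hk
  have pos1 : ∀ j, 0 < v j x → 0 < V j x := by
    intro j h
    have h1 : 0 < W (-x) * V j x - W x * V j (-x) := h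
    have h2 := mul_nonneg hW1.le (hV0 j (-x))
    by_contra h3
    have h4 : V j x = 0 := le_antisymm (not_lt.mp h3) (hV0 j x)
    rw [h4] at h1
    linarith
  have neg1 : ∀ j, v j x < 0 → 0 < V j (-x) := by
    intro j h
    have h1 : W (-x) * V j x - W x * V j (-x) < 0 := h
    have h2 := mul_nonneg hW2.le (hV0 j x)
    by_contra h3
    have h4 : V j (-x) = 0 := le_antisymm (not_lt.mp h3) (hV0 j (-x))
    rw [h4] at h1
    linarith
  rcases lt_trichotomy (v 0 x) 0 with h | h | h
  · have h1 : 0 < v 1 x := by nlinarith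
    refine core (-x) (neg_ne_zero.mpr hx0) (fun j hj => neg1 _ ?_) (fun j hj => ?_)
    · rw [he j hj]; exact h
    · rw [neg_neg]
      exact pos1 _ (by rw [ho j hj]; exact h1)
  · have h1 : v 1 x = 0 := by
      rw [h, mul_zero, zero_add] at hsum
      exact (mul_eq_zero.mp hsum).resolve_left hkr.ne'
    have hall : ∀ j ∈ Finset.range (2 * k + 1), V j x = 0 := by
      intro j hj
      rw [Finset.mem_range] at hj
      have hvj : v j x = 0 := by
        rcases Nat.even_or_odd' j with ⟨i, rfl | rfl⟩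
        · rw [he i (by omega), h]
        · rw [ho i (by omega), h1]
      have h2 : W (-x) * V j x - W x * V j (-x) = 0 := hvj
      by_contra h3
      have h4 : 0 < V j x := lt_of_le_of_ne (hV0 j x) (Ne.symm h3)
      have h5 : ¬ 0 < V j (-x) := fun h6 => hexcl x j hx0 ⟨h4, h6⟩
      have h6 : V j (-x) = 0 := le_antisymm (not_lt.mp h5) (hV0 j (-x))
      rw [h6, mul_zero, sub_zero] at h2
      exact (mul_pos hW2 h4).ne' h2
    have h2 := hVW x
    rw [Finset.sum_eq_zero hall] at h2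
    linarith
  · have h1 : v 1 x < 0 := by nlinarith
    refine core x hx0 (fun j hj => pos1 _ ?_) (fun j hj => neg1 _ ?_)
    · rw [he j hj]; exact h
    · rw [ho j hj]; exact h1

theorem interval {m : ℕ} (hm : 2 ≤ m) :
    1 - 1 / (2 * ((m / 2 : ℕ) : ℝ) + 1) ≤ GromovHausdorff.ghDist (Ball 1) (Ball m) := by
  obtain ⟨k, l, hk, hkm, rfl⟩ : ∃ k l, 0 < k ∧ (m / 2 = k) ∧ m = 2 * k + l :=
    ⟨m / 2, m % 2, by omega, rfl, by omega⟩
  rw [hkm]
  refine le_of_forall_pos_le_add fun η hη => ?_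
  obtain ⟨T, hT⟩ := exists_map (X := Ball 1) (Y := Ball (2 * k + l))
    (r := GromovHausdorff.ghDist (Ball 1) (Ball (2 * k + l)) + η / 2) (by linarith)
  obtain ⟨r, hr⟩ : ∃ r, r = GromovHausdorff.ghDist (Ball 1) (Ball (2 * k + l)) + η / 2 := ⟨_, rfl⟩
  rw [← hr] at hT
  have hinc : ∀ a : Ball (2 * k), pad l a.1 ∈ closedBall (0 : EuclideanSpace ℝ (Fin (2 * k + l))) 1 := by
    intro a
    rw [mem_closedBall, ← pad_zero (n := 2 * k) l, dist_pad]
    exact a.2
  have h1 := even_core hk (fun a => T ⟨pad l a.1, hinc a⟩) r (fun p q => by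
    have h2 := hT ⟨pad l p.1, hinc p⟩ ⟨pad l q.1, hinc q⟩
    rw [Subtype.dist_eq (⟨pad l p.1, hinc p⟩ : Ball (2 * k + l)), dist_pad, ← Subtype.dist_eq] at h2
    exact h2) (η / 2) (by linarith)
  have h2 : 2 / (2 * (k : ℝ) + 1) = 2 * (1 / (2 * (k : ℝ) + 1)) := by ring
  rw [h2] at h1
  linarith

end Pool.Agent.K4H12.GH
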